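import Pool.Agent.Q5.ZG.Lin

/-!
# Zagier's conjecture, signs and dominant values

`F` is a number field, `n ≥ 2`, `ι` the set of the `d_n` embeddings `σ_j` of the problem, `B` the
kernel of `δ_n` on `𝓑_n(F)` and `v y` the vector of the numbers `L_n(σ_j(y))`;
`Z = ζ_F(n) d_F^(1/2) π^(-n d_(n-1))`.
-/

set_option autoImplicit false

namespace Pool.Agent.Results.MP_f01982_nt.SignsAndDominance

open Pool.Agent.Q5.ZG

variable {ι B : Type} [Fintype ι] [DecidableEq ι] [AddCommGroup B]

/-- Zagier's conjecture: the determinant of the vectors `v (y i)` of some `y i` is a nonzero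
rational multiple of `Z`. -/
def Zagier (v : B →+ (ι → ℝ)) (Z : ℝ) : Prop :=
  ∃ (y : ι → B) (q : ℚ), q ≠ 0 ∧ (Matrix.of fun i j => v (y i) j).det = q * Z

/-- The consequence of the theorems of Borel and of Beilinson, Deligne and de Jeu: there are
vectors `b i`, whose determinant is a nonzero rational multiple of `Z`, such that all vectors
`v y` are combinations of the `b i` with rational coefficients. -/
def InBorelLattice (v : B →+ (ι → ℝ)) (Z : ℝ) : Prop :=
  ∃ b : Matrix ι ι ℝ, (∃ q : ℚ, q ≠ 0 ∧ b.det = q * Z) ∧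
    ∀ y : B, ∃ c : ι → ℚ, ∀ j, v y j = ∑ i, (c i : ℝ) * b i j

theorem zagier_of_span {v : B →+ (ι → ℝ)} {Z : ℝ} (hB : InBorelLattice v Z)
    (h : Submodule.span ℝ (Set.range v) = ⊤) : Zagier v Z := by
  obtain ⟨b, ⟨q, hq, hb⟩, hc⟩ := hB
  obtain ⟨y, hy⟩ := exists_det v h
  choose c hc using hc
  let C : Matrix ι ι ℚ := Matrix.of fun i k => c (y i) k
  have e : (Matrix.of fun i j => v (y i) j) = C.map (Rat.castHom ℝ) * b := by
    ext i j
    simp only [Matrix.mul_apply, Matrix.of_apply, Matrix.map_apply, C]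
    exact hc (y i) j
  have e2 : (C.map (Rat.castHom ℝ)).det = ((C.det : ℚ) : ℝ) :=
    ((Rat.castHom ℝ).map_det C).symm
  rw [e, Matrix.det_mul, e2] at hy
  refine ⟨y, C.det * q, ?_, ?_⟩
  · refine mul_ne_zero ?_ hq
    intro h0
    rw [h0, Rat.cast_zero, zero_mul] at hy
    exact hy rfl
  · rw [e, Matrix.det_mul, e2, hb]
    push_cast
    ring

theorem span_of_zagier {v : B →+ (ι → ℝ)} {Z : ℝ} (hZ : Z ≠ 0) (h : Zagier v Z) :
    Submodule.span ℝ (Set.range v) = ⊤ := by
  obtain ⟨y, q, hq, hy⟩ := h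
  refine span_of_det v y ?_
  rw [hy]
  exact mul_ne_zero (by exact_mod_cast hq) hZ

theorem result (ι B : Type) [Fintype ι] [DecidableEq ι] [AddCommGroup B] (v : B →+ (ι → ℝ))
    (Z : ℝ) (hZ : Z ≠ 0) (hB : InBorelLattice v Z) :
    [Zagier v Z,
      ∀ P : Set ι, ∃ y : B, ∀ j, (j ∈ P → 0 < v y j) ∧ (j ∉ P → v y j < 0),
      ∀ j, ∃ y : B, ∑ i ∈ Finset.univ.erase j, |v y i| < |v y j|,
      ∀ (x : ι → ℝ) (ε : ℝ), 0 < ε → ∃ (y : B) (N : ℕ), 0 < N ∧
        ∀ i, |v y i / N - x i| < ε].TFAE ∧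
    (∀ (G : Type) [Group G] [MulAction G ι] [DistribMulAction G B] [MulAction.IsPretransitive G ι],
      Nonempty ι → (∀ (g : G) (y : B) (j : ι), |v (g • y) (g • j)| = |v y j|) →
        (Zagier v Z ↔ ∃ (j : ι) (y : B), ∑ i ∈ Finset.univ.erase j, |v y i| < |v y j|)) := by
  have span_of_dom : (∀ j, ∃ y : B, ∑ i ∈ Finset.univ.erase j, |v y i| < |v y j|) →
      Submodule.span ℝ (Set.range v) = ⊤ := by
    intro h
    choose y hy using h
    exact span_of_det v y (det_ne_zero_of_dominant v y hy)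
  have dens : Submodule.span ℝ (Set.range v) = ⊤ →
      ∀ (x : ι → ℝ) (ε : ℝ), 0 < ε → ∃ (y : B) (N : ℕ), 0 < N ∧ ∀ i, |v y i / N - x i| < ε := by
    intro h x ε hε
    obtain ⟨y, N, hN, k⟩ := approx v h x ε hε
    have pN : (0 : ℝ) < N := by exact_mod_cast hN
    refine ⟨y, N, hN, fun i => ?_⟩
    have e : v y i / N - x i = (v y i - N * x i) / N := by field_simp
    rw [e, abs_div, abs_of_pos pN, div_lt_iff₀ pN, mul_comm ε]
    exact k i
  refine ⟨?_, ?_⟩
  · tfae_have 1 → 4 := fun h => dens (span_of_zagier hZ h)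
    tfae_have 4 → 2 := by
      classical
      intro h P
      obtain ⟨y, N, hN, k⟩ := h (fun i => if i ∈ P then 1 else -1) 1 one_pos
      have pN : (0 : ℝ) < N := by exact_mod_cast hN
      refine ⟨y, fun i => ⟨fun hi => ?_, fun hi => ?_⟩⟩
      · have := (abs_lt.1 (k i)).1
        rw [if_pos hi] at this
        have h1 : 0 < v y i / N := by linarith
        exact (div_pos_iff_of_pos_right pN).1 h1
      · have := (abs_lt.1 (k i)).2
        rw [if_neg hi] at this
        have h1 : v y i / N < 0 := by linarith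
        have h2 := mul_neg_of_neg_of_pos h1 pN
        rwa [div_mul_cancel₀ _ pN.ne'] at h2
    tfae_have 2 → 3 := fun h => dominant_of_span v (span_of_signs v h)
    tfae_have 3 → 1 := fun h => zagier_of_span hB (span_of_dom h)
    tfae_finish
  · intro G _ _ _ _ hι hG
    constructor
    · intro h
      obtain ⟨j⟩ := hι
      exact ⟨j, dominant_of_span v (span_of_zagier hZ h) j⟩
    · rintro ⟨j, y, h⟩
      refine zagier_of_span hB (span_of_dom fun k => ?_)
      obtain ⟨g, rfl⟩ := MulAction.exists_smul_eq G j k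
      refine ⟨g • y, ?_⟩
      rw [hG g y j]
      refine lt_of_eq_of_lt ?_ h
      symm
      refine Finset.sum_bij (fun i _ => g • i) ?_ ?_ ?_ ?_
      · intro i hi
        refine Finset.mem_erase.2 ⟨?_, Finset.mem_univ _⟩
        intro h0
        exact (Finset.mem_erase.1 hi).1 (MulAction.injective g h0)
      · intro i _ i' _ h0
        exact MulAction.injective g h0
      · intro i hi
        refine ⟨g⁻¹ • i, Finset.mem_erase.2 ⟨?_, Finset.mem_univ _⟩, smul_inv_smul g i⟩
        intro h0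
        exact (Finset.mem_erase.1 hi).1 (by rw [← h0, smul_inv_smul])
      · intro i _
        exact (hG g y i).symm

end Pool.Agent.Results.MP_f01982_nt.SignsAndDominance
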