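import Pool.Agent.Q5.ZG.Fields

/-!
# Zagier's conjecture and smaller fields

`E` is a number field, `n ≥ 2`, `G` a finite group of automorphisms of `E`, and `D.Zagier H` is
Zagier's conjecture for the subfield `E^H` and `n`; `E = E^⊥`.
-/

set_option autoImplicit false

namespace Pool.Agent.Results.MP_f01982_nt.SmallerFields

open Pool.Agent.Q5.ZG Pool.Agent.Q5.ZG.ZagierData

variable {G : Type} [Group G]

theorem zpowers_ne_bot {u : G} (hu : u ≠ 1) : Subgroup.zpowers u ≠ ⊥ := by
  intro h
  exact hu (Subgroup.zpowers_eq_bot.1 h)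

/-- two different involutions -/
theorem involutions [Finite G] (D : ZagierData G) {c d : G} (hc : orderOf c = 2)
    (hd : orderOf d = 2) (hcd : c ≠ d) (h : ∀ H : Subgroup G, H ≠ ⊥ → D.Zagier H) :
    D.Zagier ⊥ := by
  have hc2 : c * c = 1 := by
    have := pow_orderOf_eq_one c
    rwa [hc, pow_two] at this
  have hd2 : d * d = 1 := by
    have := pow_orderOf_eq_one d
    rwa [hd, pow_two] at this
  have hc1 : c ≠ 1 := by
    rintro rfl
    simp at hc
  have hd1 : d ≠ 1 := by
    rintro rfl
    simp at hd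
  set t := c * d with ht
  have hct : c * t = t⁻¹ * c := by
    have e1 : t⁻¹ = d * c := by
      rw [ht, mul_inv_rev]
      congr 1
      · exact (eq_inv_of_mul_eq_one_left hd2).symm
      · exact (eq_inv_of_mul_eq_one_left hc2).symm
    rw [e1, ht, ← mul_assoc, hc2, one_mul, mul_assoc, hc2, mul_one]
  have hctk : ∀ k : ℕ, c * t ^ k = (t ^ k)⁻¹ * c := by
    intro k
    induction k with
    | zero => simp
    | succ k ih =>
      rw [pow_succ, ← mul_assoc, ih, mul_assoc, hct, ← mul_assoc, ← mul_inv_rev, ← pow_succ',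
        ← pow_succ]
  have ht1 : t ≠ 1 := by
    intro h0
    apply hcd
    have : c = d⁻¹ := eq_inv_of_mul_eq_one_left h0
    rw [this]
    exact (eq_inv_of_mul_eq_one_left hd2).symm
  set m := orderOf t with hm
  have hm0 : 0 < m := orderOf_pos t
  have hm1 : m ≠ 1 := fun h0 => ht1 (orderOf_eq_one_iff.1 h0)
  have hp : (Nat.minFac m).Prime := Nat.minFac_prime hm1
  set p := Nat.minFac m with hpdef
  have hpm : p ∣ m := Nat.minFac_dvd m
  have : Fact p.Prime := ⟨hp⟩
  set a := t ^ (m / p) with hadef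
  have hao : orderOf a = p := by
    have hdiv : m / p ∣ m := Nat.div_dvd_of_dvd hpm
    have hne : m / p ≠ 0 := (Nat.div_pos (Nat.le_of_dvd hm0 hpm) hp.pos).ne'
    rw [hadef, orderOf_pow_of_dvd hne hdiv, ← hm, Nat.div_div_self hpm hm0.ne']
  have hap : a ^ p = 1 := by rw [← hao]; exact pow_orderOf_eq_one a
  have ha1 : a ≠ 1 := by
    intro h0
    rw [h0, orderOf_one] at hao
    exact hp.one_lt.ne hao
  have hca : c * a = a⁻¹ * c := hctk _
  rcases hp.eq_two_or_odd' with h2 | hodd
  · -- `p = 2`
    have haa : a⁻¹ = a := by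
      rw [inv_eq_iff_mul_eq_one, ← pow_two, ← h2]
      exact hap
    rw [haa] at hca
    have hac : a ≠ c := by
      intro h0
      -- `c` is a power of `t`
      have h3 : c * t = t * c := by
        rw [← h0, hadef, ← pow_succ, ← pow_succ']
      rw [hct] at h3
      have h4 : t⁻¹ = t := mul_right_cancel h3
      have h5 : t ^ 2 = 1 := by
        rw [pow_two]
        nth_rewrite 1 [← h4]
        exact inv_mul_cancel t
      have h6 : m ∣ 2 := orderOf_dvd_of_pow_eq_one h5
      have h7 : m = 2 := by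
        have := Nat.le_of_dvd (by norm_num) h6
        omega
      have h8 : a = t := by rw [hadef, h7, h2]; simp
      rw [h8, ht] at h0
      exact hd1 (by simpa using h0)
    have hcp : c ^ p = 1 := by rw [h2, pow_two]; exact hc2
    refine caseA (p := p) (a := a) (b := c) hca.symm hap hcp (fun i => h _ ?_)
      (h _ (zpowers_ne_bot hc1))
    apply zpowers_ne_bot
    intro h0
    have h9 : pw c i = 1 ∨ pw c i = c := by
      unfold pw
      have h10 : i.val < 2 := by
        have := ZMod.val_lt i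
        omega
      rcases (by omega : i.val = 0 ∨ i.val = 1) with h11 | h11
      · left; rw [h11, pow_zero]
      · right; rw [h11, pow_one]
    rcases h9 with h9 | h9
    · rw [h9, mul_one] at h0
      exact ha1 h0
    · rw [h9] at h0
      apply hac
      rw [eq_inv_of_mul_eq_one_left h0]
      exact (eq_inv_of_mul_eq_one_left hc2).symm
  · -- `p` odd
    have hr : c * a = a ^ (p - 1) * c := by
      rw [hca]
      congr 1
      rw [inv_eq_iff_mul_eq_one, ← pow_succ', Nat.sub_add_cancel hp.one_le, hap]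
    refine caseB (p := p) (q := 2) (a := a) (b := c) (r := p - 1) hap
      (by rw [pow_two]; exact hc2) hr ?_ (h _ (zpowers_ne_bot ha1)) (h _ (zpowers_ne_bot hc1))
    intro k hk0 hk2 h0
    have hk1 : k = 1 := by omega
    rw [hk1, pow_one, Nat.cast_sub hp.one_le, Nat.cast_one, CharP.cast_eq_zero, zero_sub] at h0
    have h3 : ((2 : ℕ) : ZMod p) = 0 := by
      push_cast
      have : (1 : ZMod p) + 1 = 0 := by
        nth_rewrite 1 [← h0]
        exact neg_add_cancel 1
      rw [← this]
      norm_num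
    rw [ZMod.natCast_eq_zero_iff] at h3
    have h4 := Nat.le_of_dvd (by norm_num) h3
    have h5 := hp.two_le
    have h6 : p = 2 := by omega
    rw [h6] at hodd
    exact absurd hodd (by decide)

theorem result (G : Type) [Group G] [Finite G] (D : ZagierData G) :
    ((∀ H : Subgroup G, H ≠ ⊥ → D.Zagier H) → ¬ D.Zagier ⊥ →
      ∃ (M : Type) (_ : AddCommGroup M) (_ : Module ℚ M) (τ : Representation ℚ G M)
        (π : D.K →ₗ[ℚ] M), Function.Surjective π ∧
        (∀ (g : G) (x : D.K), π (D.ρ g x) = τ g (π x)) ∧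
        FiniteDimensional ℚ M ∧ Nontrivial M ∧ ∀ g : G, g ≠ 1 → ∀ m : M, τ g m = m → m = 0) ∧
    (∀ (p q r : ℕ) (a b : G), p.Prime → 0 < q → orderOf a = p → b ^ q = 1 →
      b * a = a ^ r * b → (∀ k : ℕ, 0 < k → k < q → ¬ r ^ k ≡ 1 [MOD p]) →
      D.Zagier (Subgroup.zpowers a) → D.Zagier (Subgroup.zpowers b) → D.Zagier ⊥) ∧
    (∀ c d : G, orderOf c = 2 → orderOf d = 2 → c ≠ d →
      (∀ H : Subgroup G, H ≠ ⊥ → D.Zagier H) → D.Zagier ⊥) := by
  refine ⟨exists_free, ?_, fun c d hc hd hcd h => involutions D hc hd hcd h⟩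
  intro p q r a b hp hq ha hb hr hk h1 h2
  have : Fact p.Prime := ⟨hp⟩
  have : NeZero q := ⟨hq.ne'⟩
  have hap : a ^ p = 1 := by rw [← ha]; exact pow_orderOf_eq_one a
  refine caseB (p := p) (q := q) hap hb hr ?_ h1 h2
  intro k hk0 hkq h0
  apply hk k hk0 hkq
  rw [← ZMod.natCast_eq_natCast_iff]
  push_cast
  exact h0

end Pool.Agent.Results.MP_f01982_nt.SmallerFields
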