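import Mathlib
import Pool.Agent.Q112.ZG.Poly
import Pool.Agent.Q112.ZG.Norm

/-!
# Zagier's conjecture: reduction to fields which are primitive with respect to their embeddings

For `n ≥ 2` and a number field `F`, `ZagierConjecture n F` is Q1 for `n` and `F`, with the groups
`B_n` of Goncharov, the maps `δ_n` and the single-valued polylogarithms `𝓛_n`. We deduce from the
theorems of Borel and of Beilinson, Deligne and de Jeu:

* if `F` is not `n`-primitive and Q1 holds for `n` and the proper subfields of `F`, then it holds for
  `n` and `F`; so Q1 for `n` and all number fields follows from Q1 for `n` and the `n`-primitive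
  fields;
* `F` is not `n`-primitive if its automorphism group has a norm relation, for instance if it
  contains a noncyclic group of order `p²`;
* for `n` odd, `F` is not `n`-primitive if it has no real embedding and the image of each embedding
  is stable under complex conjugation (e.g. `F` is Galois over `ℚ` and not real, or a CM field), and
  then Q1 for the fields `σ⁻¹(ℝ)` implies Q1 for `F`.
-/

set_option autoImplicit false

namespace Pool.Agent.Results.MP_f01982_nt.SubfieldReduction

open NumberField Q112ZG

/-- Q1 for `n` and `F`. -/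
def ZagierConjecture (n : ℕ) (F : Type) [Field F] [NumberField F] : Prop :=
  Zagier n F (polySpace n F)

/-- The known theorems (of Borel; of Beilinson, Deligne and de Jeu) for `n` and the number field
`F`, where `R` is the image of the Borel regulator (more precisely, of `K_{2n-1}(F) ⊗ ℚ`). -/
def KnownTheorems (n : ℕ) (F : Type) [Field F] [NumberField F] : Prop :=
  ∃ R : Submodule ℚ ((F →+* ℂ) → ℝ), Borel n F R ∧ polySpace n F ≤ R

/-- The automorphism group of `F` contains a noncyclic group of order `p²` for some prime `p`. -/
def HasBicyclic (F : Type) [Field F] : Prop :=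
  ∃ (p : ℕ) (a b : RingAut F), p.Prime ∧ a ^ p = 1 ∧ b ^ p = 1 ∧ a * b = b * a ∧ a ≠ 1 ∧
    ∀ k : ℕ, b ≠ a ^ k

/-- `F` has no real embedding, and complex conjugation induces an automorphism of `F` by each
embedding. -/
def HasConjugations (F : Type) [Field F] : Prop :=
  ∀ σ : F →+* ℂ, ¬ ComplexEmbedding.IsReal σ ∧
    ∃ s : RingAut F, ∀ x, σ (s x) = (starRingEnd ℂ) (σ x)

theorem result {n : ℕ} (hn : 2 ≤ n)
    (known : ∀ (F : Type) [Field F] [NumberField F], KnownTheorems n F) :
    (∀ (F : Type) [Field F] [NumberField F], ¬ Primitive n F →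
      (∀ E : Subfield F, E ≠ ⊤ → ZagierConjecture n E) → ZagierConjecture n F) ∧
    ((∀ (F : Type) [Field F] [NumberField F], Primitive n F → ZagierConjecture n F) →
      ∀ (F : Type) [Field F] [NumberField F], ZagierConjecture n F) ∧
    (∀ (F : Type) [Field F] [NumberField F], HasNormRelation F ∨ HasBicyclic F →
      ¬ Primitive n F) ∧
    (Odd n → ∀ (F : Type) [Field F] [NumberField F], HasConjugations F →
      ¬ Primitive n F ∧ ((∀ σ : F →+* ℂ, ZagierConjecture n (realSub σ)) → ZagierConjecture n F)) := by
  have hn1 : 1 ≤ n := by omega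
  choose R hR hPR using known
  have hfun : ∀ (E F : Type) [Field E] [NumberField E] [Field F] [NumberField F] (τ : E →+* F),
      ∀ x ∈ polySpace n E, pull τ x ∈ polySpace n F :=
    fun E F _ _ _ _ τ x hx => polySpace_pull τ hx
  refine ⟨?_, ?_, ?_, ?_⟩
  · intro F _ _ hF hE
    unfold Primitive at hF
    rw [not_not] at hF
    refine spanning hn1 hPR hR hfun
      (fun i : {E : Subfield F // E ≠ ⊤} => (i.1 : Type)) (fun i => i.1.subtype)
      (fun i => hE i.1 i.2) ?_
    intro x hx
    refine Submodule.span_mono ?_ (hF x hx)
    rintro z ⟨E, hE, x', hx', rfl⟩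
    exact ⟨⟨E, hE⟩, x', hx', rfl⟩
  · intro h F _ _
    exact reduction hn1 hPR hR hfun h F
  · rintro F _ _ (hF | ⟨p, a, b, hp, ha, hb, hab, ha1, hba⟩)
    · exact not_primitive_of_norm hF
    · exact not_primitive_of_aut hp ha hb hab ha1 hba
  · intro hodd F _ _ hs
    refine ⟨not_primitive_of_real hodd (fun σ => (hs σ).1) (fun σ => (hs σ).2), fun hE => ?_⟩
    exact spanning hn1 hPR hR hfun
      (fun σ : F →+* ℂ => (realSub σ : Type)) (fun σ => (realSub σ).subtype) hE
      fun x hx => span_real hodd (fun σ => (hs σ).1) (fun σ => (hs σ).2) hx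

end Pool.Agent.Results.MP_f01982_nt.SubfieldReduction
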